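import Mathlib

set_option autoImplicit false

/-!
Urysohn spaces with distances in a set: definitions and homogeneity.
-/

namespace Pool.Agent.X196.UD

/-- distance value set (for bounded sets) -/
def DistValueSet (Δ : Set ℝ) : Prop :=
  (∀ a ∈ Δ, 0 < a) ∧ ∀ a ∈ Δ, ∀ b ∈ Δ, min (a + b) (sSup Δ) ∈ Δ

/-- valid prescription of distances to the points of a finite set -/
def Valid {U : Type} [MetricSpace U] (Δ : Set ℝ) (A : Finset U) (f : U → ℝ) : Prop :=
  (∀ a ∈ A, f a ∈ Δ) ∧ ∀ a ∈ A, ∀ b ∈ A, |f a - f b| ≤ dist a b ∧ dist a b ≤ f a + f b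

/-- the space is the Urysohn space with distances in `Δ` -/
structure IsUrysohn (Δ : Set ℝ) (U : Type) [MetricSpace U] : Prop where
  countable : Countable U
  dist_mem : ∀ x y : U, x ≠ y → dist x y ∈ Δ
  ext : ∀ (A : Finset U) (f : U → ℝ), Valid Δ A f → ∃ x, ∀ a ∈ A, dist x a = f a

section
variable {Δ : Set ℝ} {U : Type} [MetricSpace U]

/-- finite partial isometries -/
def PI (R : Finset (U × U)) : Prop := ∀ p ∈ R, ∀ q ∈ R, dist p.1 q.1 = dist p.2 q.2

theorem forth [DecidableEq U] (hU : IsUrysohn Δ U) (R : Finset (U × U)) (hR : PI R) (x : U) :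
    ∃ y, PI (insert (x, y) R) := by
  classical
  by_cases hx : ∃ p ∈ R, p.1 = x
  · obtain ⟨p, hp, rfl⟩ := hx
    refine ⟨p.2, ?_⟩
    have : insert (p.1, p.2) R = R := Finset.insert_eq_of_mem hp
    rw [this]
    exact hR
  · push Not at hx
    let f : U → ℝ := fun u => if h : ∃ p ∈ R, p.2 = u then dist x (h.choose).1 else 0
    have hf : ∀ p ∈ R, f p.2 = dist x p.1 := by
      intro p hp
      have h : ∃ q ∈ R, q.2 = p.2 := ⟨p, hp, rfl⟩
      show (if h : ∃ q ∈ R, q.2 = p.2 then dist x (h.choose).1 else 0) = dist x p.1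
      rw [dif_pos h]
      have h1 := h.choose_spec.1
      have h2 := h.choose_spec.2
      have h3 := hR _ h1 _ hp
      rw [h2, dist_self] at h3
      rw [dist_eq_zero.1 h3]
    obtain ⟨y, hy⟩ := hU.ext (R.image Prod.snd) f (by
      refine ⟨?_, ?_⟩
      · intro a ha
        obtain ⟨p, hp, rfl⟩ := Finset.mem_image.1 ha
        rw [hf p hp]
        exact hU.dist_mem _ _ (fun h => hx p hp h.symm)
      · intro a ha b hb
        obtain ⟨p, hp, rfl⟩ := Finset.mem_image.1 ha
        obtain ⟨q, hq, rfl⟩ := Finset.mem_image.1 hb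
        rw [hf p hp, hf q hq, ← hR p hp q hq]
        refine ⟨?_, ?_⟩
        · rw [dist_comm x p.1, dist_comm x q.1]
          exact abs_dist_sub_le _ _ _
        · rw [dist_comm x p.1]
          exact dist_triangle _ _ _)
    have hy' : ∀ p ∈ R, dist y p.2 = dist x p.1 := by
      intro p hp
      rw [hy p.2 (Finset.mem_image_of_mem _ hp), hf p hp]
    refine ⟨y, ?_⟩
    intro p hp q hq
    rw [Finset.mem_insert] at hp hq
    rcases hp with rfl | hp <;> rcases hq with rfl | hq
    · simp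
    · exact (hy' q hq).symm
    · show dist p.1 x = dist p.2 y
      rw [dist_comm p.1 x, dist_comm p.2 y]
      exact (hy' p hp).symm
    · exact hR p hp q hq

theorem PI_swap [DecidableEq U] (R : Finset (U × U)) (hR : PI R) : PI (R.image Prod.swap) := by
  intro p hp q hq
  obtain ⟨p', hp', rfl⟩ := Finset.mem_image.1 hp
  obtain ⟨q', hq', rfl⟩ := Finset.mem_image.1 hq
  exact (hR p' hp' q' hq').symm

theorem back [DecidableEq U] (hU : IsUrysohn Δ U) (R : Finset (U × U)) (hR : PI R) (y : U) :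
    ∃ x, PI (insert (x, y) R) := by
  obtain ⟨x, hx⟩ := forth hU _ (PI_swap R hR) y
  refine ⟨x, ?_⟩
  intro p hp q hq
  have h1 : ∀ r ∈ insert (x, y) R, r.swap ∈ insert (y, x) (R.image Prod.swap) := by
    intro r hr
    rw [Finset.mem_insert] at hr ⊢
    rcases hr with rfl | hr
    · left; rfl
    · right; exact Finset.mem_image_of_mem _ hr
  exact (hx _ (h1 p hp) _ (h1 q hq)).symm

theorem homog (hU : IsUrysohn Δ U) {B : Type} [Finite B] (s t : B → U)
    (hst : ∀ a b, dist (s a) (s b) = dist (t a) (t b)) :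
    ∃ g : U ≃ᵢ U, ∀ b, g (s b) = t b := by
  classical
  have := Fintype.ofFinite B
  have hne : Nonempty U := by
    obtain ⟨x, -⟩ := hU.ext ∅ (fun _ => 0) ⟨by simp, by simp⟩
    exact ⟨x⟩
  have hc := hU.countable
  obtain ⟨e, he⟩ := exists_surjective_nat U
  have hstep : ∀ (R : {R : Finset (U × U) // PI R}) (n : ℕ), ∃ R' : {R : Finset (U × U) // PI R},
      R.1 ⊆ R'.1 ∧ (∃ y, (e n, y) ∈ R'.1) ∧ ∃ x, (x, e n) ∈ R'.1 := by
    intro R n
    obtain ⟨y, hy⟩ := forth hU R.1 R.2 (e n)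
    obtain ⟨x, hx⟩ := back hU _ hy (e n)
    refine ⟨⟨_, hx⟩, ?_, ⟨y, ?_⟩, ⟨x, ?_⟩⟩
    · exact (Finset.subset_insert _ _).trans (Finset.subset_insert _ _)
    · exact Finset.mem_insert_of_mem (Finset.mem_insert_self _ _)
    · exact Finset.mem_insert_self _ _
  choose st hst1 hst2 hst3 using hstep
  have h0 : PI (Finset.univ.image (fun b => (s b, t b))) := by
    intro p hp q hq
    obtain ⟨a, _, rfl⟩ := Finset.mem_image.1 hp
    obtain ⟨b, _, rfl⟩ := Finset.mem_image.1 hq
    exact hst a b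
  let sq : ℕ → {R : Finset (U × U) // PI R} := fun n => Nat.rec ⟨_, h0⟩ (fun n R => st R n) n
  have hsucc : ∀ n, sq (n + 1) = st (sq n) n := fun n => rfl
  have hmono : Monotone (fun n => (sq n).1) := by
    apply monotone_nat_of_le_succ
    intro n
    show (sq n).1 ⊆ (sq (n + 1)).1
    rw [hsucc]
    exact hst1 _ _
  let T : U → U → Prop := fun x y => ∃ n, (x, y) ∈ (sq n).1
  have hT : ∀ x y x' y', T x y → T x' y' → dist x x' = dist y y' := by
    rintro x y x' y' ⟨n, hn⟩ ⟨n', hn'⟩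
    exact (sq (max n n')).2 _ (hmono (le_max_left n n') hn) _ (hmono (le_max_right n n') hn')
  have hT1 : ∀ x, ∃ y, T x y := by
    intro x
    obtain ⟨n, rfl⟩ := he x
    obtain ⟨y, hy⟩ := hst2 (sq n) n
    exact ⟨y, n + 1, by rw [hsucc]; exact hy⟩
  have hT2 : ∀ y, ∃ x, T x y := by
    intro y
    obtain ⟨n, rfl⟩ := he y
    obtain ⟨x, hx⟩ := hst3 (sq n) n
    exact ⟨x, n + 1, by rw [hsucc]; exact hx⟩
  choose g hg using hT1
  choose g' hg' using hT2
  refine ⟨IsometryEquiv.mk ⟨g, g', ?_, ?_⟩ ?_, ?_⟩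
  · intro x
    have := hT _ _ _ _ (hg' (g x)) (hg x)
    rw [dist_self] at this
    exact dist_eq_zero.1 this
  · intro y
    have := hT _ _ _ _ (hg (g' y)) (hg' y)
    rw [dist_self] at this
    exact dist_eq_zero.1 this.symm
  · exact Isometry.of_dist_eq (fun x y => (hT _ _ _ _ (hg x) (hg y)).symm)
  · intro b
    have h1 : T (s b) (t b) := ⟨0, Finset.mem_image_of_mem _ (Finset.mem_univ b)⟩
    have := hT _ _ _ _ (hg (s b)) h1
    rw [dist_self] at this
    exact dist_eq_zero.1 this.symm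

end

end Pool.Agent.X196.UD
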