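import Pool.Agent.X196.UD.Homog

set_option autoImplicit false

/-!
A finite group acting on the Urysohn space with finitely many distances: many points which are
twins of each other with the same displacement function.
-/

namespace Pool.Agent.X196.UD

section
variable {Δ : Set ℝ} {U : Type} [MetricSpace U]

/-- the least, the greatest and the second greatest distance -/
theorem dvs_vals (hfin : Δ.Finite) (h2 : 2 ≤ Δ.ncard) (hD : DistValueSet Δ) :
    ∃ m M M' : ℝ, m ∈ Δ ∧ M ∈ Δ ∧ M' ∈ Δ ∧ 0 < m ∧ (∀ a ∈ Δ, m ≤ a ∧ a ≤ M) ∧ M' < M ∧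
      M ≤ M' + m := by
  have hne : Δ.Nonempty := by
    rw [← Set.ncard_pos hfin]
    omega
  obtain ⟨m, hm, hm'⟩ := Set.exists_min_image Δ id hfin hne
  obtain ⟨M, hM, hM'⟩ := Set.exists_max_image Δ id hfin hne
  simp only [id] at hm' hM'
  have hfin2 : (Δ \ {M}).Finite := hfin.subset Set.sdiff_subset
  have hne2 : (Δ \ {M}).Nonempty := by
    rw [← Set.ncard_pos hfin2, Set.ncard_sdiff_singleton_of_mem hM]
    omega
  obtain ⟨N, hN, hN'⟩ := Set.exists_max_image (Δ \ {M}) id hfin2 hne2
  simp only [id] at hN'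
  have hNM : N < M := lt_of_le_of_ne (hM' N hN.1) (fun h => hN.2 h)
  have hsup : sSup Δ = M := by
    apply le_antisymm
    · exact csSup_le hne hM'
    · exact le_csSup hfin.bddAbove hM
  have h3 := hD.2 N hN.1 m hm
  rw [hsup] at h3
  have hmpos := hD.1 m hm
  have h4 : M ≤ N + m := by
    by_contra hcon
    push Not at hcon
    rw [min_eq_left hcon.le] at h3
    have h5 := hN' (N + m) ⟨h3, fun h => by
      rw [Set.mem_singleton_iff] at h
      linarith⟩
    linarith
  exact ⟨m, M, N, hm, hM, hN.1, hmpos, fun a ha => ⟨hm' a ha, hM' a ha⟩, hNM, h4⟩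

/-- the displacement function of a point -/
def Col {Λ : Type} [Group Λ] (act : Λ →* (U ≃ᵢ U)) (z : U) : Λ → ℝ := fun l => dist z (act l z)

theorem act_dist {Λ : Type} [Group Λ] (act : Λ →* (U ≃ᵢ U)) (l : Λ) (x y : U) :
    dist (act l x) y = dist x (act l⁻¹ y) := by
  rw [← (act l⁻¹).dist_eq (act l x) y]
  congr 1
  have : (act l⁻¹ * act l) x = x := by rw [← map_mul, inv_mul_cancel, map_one]; rfl
  exact this

theorem Col_inv {Λ : Type} [Group Λ] (act : Λ →* (U ≃ᵢ U)) (z : U) (l : Λ) :
    Col act z l⁻¹ = Col act z l := by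
  unfold Col
  rw [← act_dist, dist_comm]

/-- a type and a displacement function realized in all extensions of the type -/
theorem base (hfin : Δ.Finite) (hU : IsUrysohn Δ U) {Λ : Type} [Group Λ] [Finite Λ]
    (act : Λ →* (U ≃ᵢ U)) : ∃ (P : Finset U) (p : U → ℝ) (f : Λ → ℝ), Valid Δ P p ∧
      ∀ (P' : Finset U) (p' : U → ℝ), P ⊆ P' → Valid Δ P' p' → (∀ a ∈ P, p' a = p a) →
        ∃ z, (∀ a ∈ P', dist z a = p' a) ∧ Col act z = f := by
  classical
  let cs : Finset U → (U → ℝ) → Set (Λ → ℝ) := fun P p =>
    {f | ∃ z, (∀ a ∈ P, dist z a = p a) ∧ Col act z = f}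
  have hcs : ∀ P p, (cs P p).Finite := by
    intro P p
    have h1 : (Set.univ.pi (fun _ : Λ => insert (0 : ℝ) Δ)).Finite :=
      Set.Finite.pi (fun _ => hfin.insert 0)
    apply h1.subset
    rintro f ⟨z, -, rfl⟩ l -
    unfold Col
    by_cases h : z = act l z
    · left
      rw [← h, dist_self]
    · right
      exact hU.dist_mem _ _ h
  have hex : ∃ n, ∃ P p, Valid Δ P p ∧ (cs P p).ncard = n :=
    ⟨_, ∅, fun _ => 0, ⟨by simp, by simp⟩, rfl⟩
  obtain ⟨P, p, hP, hn⟩ := Nat.find_spec hex
  obtain ⟨z, hz⟩ := hU.ext P p hP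
  refine ⟨P, p, Col act z, hP, ?_⟩
  intro P' p' hPP hV hpp
  have hsub : cs P' p' ⊆ cs P p := by
    rintro f ⟨y, hy, rfl⟩
    exact ⟨y, fun a ha => by rw [hy a (hPP ha), hpp a ha], rfl⟩
  have hle : (cs P p).ncard ≤ (cs P' p').ncard := by
    rw [hn]
    exact Nat.find_min' hex ⟨P', p', hV, rfl⟩
  have heq := Set.eq_of_subset_of_ncard_le hsub hle (hcs P p)
  have : Col act z ∈ cs P' p' := by
    rw [heq]
    exact ⟨z, hz, rfl⟩
  exact this

/-- the displacement function does not vanish -/
theorem base_ne (hfin : Δ.Finite) (h2 : 2 ≤ Δ.ncard) (hD : DistValueSet Δ) (hU : IsUrysohn Δ U)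
    {Λ : Type} [Group Λ] (act : Λ →* (U ≃ᵢ U)) (hact : Function.Injective act)
    (P : Finset U) (p : U → ℝ) (f : Λ → ℝ) (hP : Valid Δ P p)
    (hb : ∀ (P' : Finset U) (p' : U → ℝ), P ⊆ P' → Valid Δ P' p' → (∀ a ∈ P, p' a = p a) →
        ∃ z, (∀ a ∈ P', dist z a = p' a) ∧ Col act z = f) (l : Λ) (hl : l ≠ 1) : f l ≠ 0 := by
  classical
  obtain ⟨m, M, N, hm, hM, hN, hmpos, hbd, hNM, hMN⟩ := dvs_vals hfin h2 hD
  intro hf
  have hy0 : ∃ y, act l⁻¹ y ≠ y := by
    by_contra hcon
    push Not at hcon
    apply hl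
    have : act l⁻¹ = 1 := by
      ext y
      exact hcon y
    rw [← map_one act] at this
    exact inv_eq_one.1 (hact this)
  obtain ⟨y0, hy0⟩ := hy0
  -- a far point moved by `l`
  let X : Finset U := P ∪ P.image (fun x => act l⁻¹ x) ∪ {y0, act l⁻¹ y0}
  let q : U → ℝ := fun x => if x = y0 then N else M
  have hq : ∀ x, q x = N ∨ q x = M := by
    intro x
    show (if x = y0 then N else M) = N ∨ (if x = y0 then N else M) = M
    split_ifs
    · left; rfl
    · right; rfl
  have hmN := (hbd N hN).1
  have hmM := (hbd M hM).1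
  obtain ⟨a, ha⟩ := hU.ext X q (by
    refine ⟨?_, ?_⟩
    · intro x _
      rcases hq x with h | h <;> rw [h]
      · exact hN
      · exact hM
    · intro x _ y _
      by_cases hxy : x = y
      · subst hxy
        rw [sub_self, abs_zero, dist_self]
        refine ⟨le_rfl, ?_⟩
        rcases hq x with h | h <;> rw [h] <;> linarith
      · have hd := hbd _ (hU.dist_mem x y hxy)
        rcases hq x with h | h <;> rcases hq y with h' | h' <;> rw [h, h'] <;>
          refine ⟨?_, by linarith⟩ <;> rw [abs_le] <;> constructor <;> linarith)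
  have hdX : ∀ x ∈ X, dist a x = N ∨ dist a x = M := by
    intro x hx
    rw [ha x hx]
    exact hq x
  have haX : a ∉ X := by
    intro h
    rcases hdX a h with h1 | h1 <;> rw [dist_self] at h1 <;> linarith
  have hal : act l a ≠ a := by
    intro h
    have h1 : dist a y0 = N := by
      rw [ha y0 (by simp [X])]
      simp [q]
    have h3 : dist a (act l⁻¹ y0) = M := by
      rw [ha _ (by simp [X])]
      show (if act l⁻¹ y0 = y0 then N else M) = M
      rw [if_neg hy0]
    rw [← act_dist, h, h1] at h3
    linarith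
  have hda : ∀ x ∈ P, dist a x = N ∨ dist a x = M := fun x hx => hdX x (by simp [X, hx])
  have hdla : ∀ x ∈ P, dist (act l a) x = N ∨ dist (act l a) x = M := by
    intro x hx
    rw [act_dist]
    apply hdX
    simp only [X, Finset.mem_union, Finset.mem_image]
    left; right
    exact ⟨x, hx, rfl⟩
  have haP : a ∉ P := by
    intro h
    rcases hda a h with h1 | h1 <;> rw [dist_self] at h1 <;> linarith
  have hlaP : act l a ∉ P := by
    intro h
    rcases hdla _ h with h1 | h1 <;> rw [dist_self] at h1 <;> linarith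
  let p' : U → ℝ := fun x => if x = a then M else if x = act l a then N else p x
  have hp'a : p' a = M := by simp [p']
  have hp'l : p' (act l a) = N := by simp [p', hal]
  have hp'P : ∀ x ∈ P, p' x = p x := by
    intro x hx
    have h1 : x ≠ a := by rintro rfl; exact haP hx
    have h3 : x ≠ act l a := by rintro rfl; exact hlaP hx
    simp [p', h1, h3]
  -- pairs with one of the two new points
  have hmix : ∀ (x : U) (y : U) (c : ℝ), x ∈ P → (c = N ∨ c = M) →
      (dist y x = N ∨ dist y x = M) → |p x - c| ≤ dist y x ∧ dist y x ≤ p x + c := by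
    intro x y c hx hc hd
    have hpx := hbd _ (hP.1 x hx)
    rcases hc with rfl | rfl <;> rcases hd with h | h <;> rw [h] <;>
      refine ⟨?_, by linarith⟩ <;> rw [abs_le] <;> constructor <;> linarith
  have hV : Valid Δ (insert a (insert (act l a) P)) p' := by
    refine ⟨?_, ?_⟩
    · intro x hx
      rw [Finset.mem_insert, Finset.mem_insert] at hx
      rcases hx with rfl | rfl | hx
      · rw [hp'a]; exact hM
      · rw [hp'l]; exact hN
      · rw [hp'P x hx]; exact hP.1 x hx
    · have hMNd : |M - N| ≤ dist a (act l a) ∧ dist a (act l a) ≤ M + N := by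
        have hd := hbd _ (hU.dist_mem a (act l a) hal.symm)
        refine ⟨?_, by linarith⟩
        rw [abs_le]
        constructor <;> linarith
      intro x hx y hy
      rw [Finset.mem_insert, Finset.mem_insert] at hx hy
      rcases hx with rfl | rfl | hx <;> rcases hy with rfl | rfl | hy
      · rw [hp'a, sub_self, abs_zero, dist_self]; exact ⟨le_rfl, by linarith⟩
      · rw [hp'a, hp'l]; exact hMNd
      · rw [hp'a, hp'P y hy, abs_sub_comm, add_comm]
        exact hmix y _ M hy (Or.inr rfl) (hda y hy)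
      · rw [hp'a, hp'l, abs_sub_comm, add_comm, dist_comm]; exact hMNd
      · rw [hp'l, sub_self, abs_zero, dist_self]; exact ⟨le_rfl, by linarith⟩
      · rw [hp'l, hp'P y hy, abs_sub_comm, add_comm]
        exact hmix y _ N hy (Or.inl rfl) (hdla y hy)
      · rw [hp'a, hp'P x hx, dist_comm]
        exact hmix x _ M hx (Or.inr rfl) (hda x hx)
      · rw [hp'l, hp'P x hx, dist_comm]
        exact hmix x _ N hx (Or.inl rfl) (hdla x hx)
      · rw [hp'P x hx, hp'P y hy]
        exact hP.2 x hx y hy
  obtain ⟨z, hz, hcz⟩ := hb _ p' (fun x hx => by simp [hx]) hV hp'P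
  have h1 : dist z a = M := by rw [hz a (by simp), hp'a]
  have h3 : dist z (act l a) = N := by rw [hz _ (by simp), hp'l]
  have h4 : dist z (act l z) = 0 := by
    have := congrFun hcz l
    rw [hf] at this
    exact this
  have h5 : act l z = z := (dist_eq_zero.1 h4).symm
  rw [← h5, (act l).dist_eq, h1] at h3
  linarith

/-- many twins -/
theorem twins (hfin : Δ.Finite) (h2 : 2 ≤ Δ.ncard) (hD : DistValueSet Δ) (hU : IsUrysohn Δ U)
    {Λ : Type} [Group Λ] [Finite Λ] (act : Λ →* (U ≃ᵢ U)) (hact : Function.Injective act) :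
    ∃ (f : Λ → ℝ) (m : ℝ), (∀ l, l ≠ 1 → f l ≠ 0) ∧ m ≠ 0 ∧ ∀ n : ℕ, ∃ Z : Finset U, n ≤ Z.card ∧
      (∀ z ∈ Z, ∀ z' ∈ Z, z ≠ z' → dist z z' = m) ∧
      ∀ z ∈ Z, ∀ z' ∈ Z, ∀ l : Λ, l ≠ 1 → dist z (act l z') = f l := by
  classical
  have := Fintype.ofFinite Λ
  obtain ⟨P, p, f, hP, hb⟩ := base hfin hU act
  have hne := base_ne hfin h2 hD hU act hact P p f hP hb
  obtain ⟨m, M, N, hm, hM, hN, hmpos, hbd, hNM, hMN⟩ := dvs_vals hfin h2 hD
  refine ⟨f, m, hne, hmpos.ne', ?_⟩
  have main : ∀ n : ℕ, ∃ Z : Finset U, Z.card = n + 1 ∧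
      (∀ z ∈ Z, (∀ a ∈ P, dist z a = p a) ∧ Col act z = f) ∧
      (∀ z ∈ Z, ∀ z' ∈ Z, z ≠ z' → dist z z' = m) ∧
      ∀ z ∈ Z, ∀ z' ∈ Z, ∀ l : Λ, l ≠ 1 → dist z (act l z') = f l := by
    intro n
    induction n with
    | zero =>
      obtain ⟨z, hz, hcz⟩ := hb P p (Finset.Subset.refl _) hP (fun _ _ => rfl)
      refine ⟨{z}, by simp, ?_, ?_, ?_⟩
      · intro y hy
        rw [Finset.mem_singleton] at hy
        subst hy
        exact ⟨hz, hcz⟩
      · intro y hy y' hy' hne'
        rw [Finset.mem_singleton] at hy hy'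
        exact absurd (hy.trans hy'.symm) hne'
      · intro y hy y' hy' l _
        rw [Finset.mem_singleton] at hy hy'
        subst hy
        subst hy'
        exact congrFun hcz l
    | succ n ih =>
      obtain ⟨Z, hZc, hZ1, hZ2, hZ3⟩ := ih
      obtain ⟨z1, hz1⟩ : Z.Nonempty := by
        rw [← Finset.card_pos]
        omega
      let X : Finset U := P ∪ Z.biUnion (fun z => Finset.univ.image (fun l : Λ => act l z))
      have hX : ∀ z ∈ Z, ∀ l : Λ, act l z ∈ X := by
        intro z hz l
        apply Finset.mem_union_right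
        exact Finset.mem_biUnion.2 ⟨z, hz, Finset.mem_image_of_mem _ (Finset.mem_univ l)⟩
      have hX1 : ∀ z ∈ Z, z ∈ X := by
        intro z hz
        have := hX z hz 1
        rw [map_one] at this
        exact this
      let q : U → ℝ := fun x => if x = z1 then m else dist z1 x
      have hq1 : q z1 = m := by simp [q]
      have hq2 : ∀ x, x ≠ z1 → q x = dist z1 x := by
        intro x hx
        simp [q, hx]
      have hVal : Valid Δ X q := by
        refine ⟨?_, ?_⟩
        · intro x _
          by_cases hx : x = z1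
          · rw [hx, hq1]; exact hm
          · rw [hq2 x hx]
            exact hU.dist_mem _ _ (fun h => hx h.symm)
        · intro x _ y _
          by_cases hx : x = z1 <;> by_cases hy : y = z1
          · rw [hx, hy, hq1, sub_self, abs_zero, dist_self]
            exact ⟨le_rfl, by linarith⟩
          · rw [hx, hq1, hq2 y hy]
            have hd := hbd _ (hU.dist_mem z1 y (fun h => hy h.symm))
            refine ⟨?_, by linarith⟩
            rw [abs_le]
            constructor <;> linarith
          · rw [hy, hq1, hq2 x hx, dist_comm x z1]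
            have hd := hbd _ (hU.dist_mem z1 x (fun h => hx h.symm))
            refine ⟨?_, by linarith⟩
            rw [abs_le]
            constructor <;> linarith
          · rw [hq2 x hx, hq2 y hy]
            refine ⟨?_, ?_⟩
            · rw [dist_comm z1 x, dist_comm z1 y]
              exact abs_dist_sub_le _ _ _
            · rw [dist_comm z1 x]
              exact dist_triangle _ _ _
      have hpos : ∀ x ∈ X, 0 < q x := by
        intro x hx
        exact lt_of_lt_of_le hmpos (hbd _ (hVal.1 x hx)).1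
      have hqP : ∀ a ∈ P, q a = p a := by
        intro a ha
        have hne' : a ≠ z1 := by
          rintro rfl
          have h1 := (hZ1 a hz1).1 a ha
          rw [dist_self] at h1
          have h3 := (hbd _ (hP.1 a ha)).1
          linarith
        rw [hq2 a hne']
        exact (hZ1 z1 hz1).1 a ha
      obtain ⟨y, hy, hcy⟩ := hb X q Finset.subset_union_left hVal hqP
      have hyX : y ∉ X := by
        intro h
        have h1 := hy y h
        have h3 := hpos y h
        rw [← h1, dist_self] at h3
        exact lt_irrefl _ h3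
      have hyZ : y ∉ Z := fun h => hyX (hX1 y h)
      have hyz : ∀ z ∈ Z, dist y z = m := by
        intro z hz
        rw [hy z (hX1 z hz)]
        by_cases h : z = z1
        · rw [h, hq1]
        · rw [hq2 z h]
          exact hZ2 z1 hz1 z hz (fun h' => h h'.symm)
      have hylz : ∀ z ∈ Z, ∀ l : Λ, l ≠ 1 → dist y (act l z) = f l := by
        intro z hz l hl
        rw [hy _ (hX z hz l)]
        have h1 : dist z1 (act l z) = f l := hZ3 z1 hz1 z hz l hl
        have h3 : act l z ≠ z1 := by
          intro h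
          rw [h, dist_self] at h1
          exact hne l hl h1.symm
        rw [hq2 _ h3, h1]
      have hfinv : ∀ l : Λ, f l⁻¹ = f l := by
        intro l
        rw [← hcy]
        exact Col_inv act y l
      refine ⟨insert y Z, by rw [Finset.card_insert_of_notMem hyZ, hZc], ?_, ?_, ?_⟩
      · intro z hz
        rcases Finset.mem_insert.1 hz with rfl | hz
        · exact ⟨fun a ha => by rw [hy a (Finset.mem_union_left _ ha), hqP a ha], hcy⟩
        · exact hZ1 z hz
      · intro z hz z' hz' hne'
        rcases Finset.mem_insert.1 hz with hz0 | hz0 <;>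
          rcases Finset.mem_insert.1 hz' with hz1' | hz1'
        · exact absurd (hz0.trans hz1'.symm) hne'
        · rw [hz0]; exact hyz z' hz1'
        · rw [hz1', dist_comm]; exact hyz z hz0
        · exact hZ2 z hz0 z' hz1' hne'
      · intro z hz z' hz' l hl
        rcases Finset.mem_insert.1 hz with hz0 | hz0 <;>
          rcases Finset.mem_insert.1 hz' with hz1' | hz1'
        · rw [hz0, hz1']; exact congrFun hcy l
        · rw [hz0]; exact hylz z' hz1' l hl
        · rw [hz1', dist_comm, act_dist, hylz z hz0 l⁻¹ (fun h => hl (inv_eq_one.1 h)), hfinv]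
        · exact hZ3 z hz0 z' hz1' l hl
  intro n
  obtain ⟨Z, h1, -, h3, h4⟩ := main n
  exact ⟨Z, by omega, h3, h4⟩

end

end Pool.Agent.X196.UD
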